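import Mathlib
import Pool.Agent.Helper58.FX.Defs

set_option autoImplicit false
set_option linter.unusedVariables false
set_option linter.unusedSectionVars false
open MeasureTheory Filter Topology
open scoped InnerProductSpace ComplexConjugate ENNReal

namespace Helper58.FX

section Hilbert

variable {H : Type*} [NormedAddCommGroup H] [InnerProductSpace ℂ H]
  {U V : H →ₗᵢ[ℂ] H}

lemma pow_eig {W : H →ₗᵢ[ℂ] H} {α : ℂ} {v : H} (h : W v = α • v) (n : ℕ) :
    (W ^ n) v = α ^ n • v := by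
  induction n with
  | zero => simp
  | succ n ih =>
    rw [pow_succ', LinearIsometry.coe_mul, Function.comp_apply, ih, map_smul, h, smul_smul,
      pow_succ]

lemma act_eig {α β : ℂ} {v : H} (h : v ∈ Eg U V α β) (s : ℕ × ℕ) :
    act U V s v = (α ^ s.1 * β ^ s.2) • v := by
  obtain ⟨h1, h2⟩ := mem_Eg.1 h
  unfold act
  rw [LinearIsometry.coe_mul, Function.comp_apply, pow_eig h2, map_smul, pow_eig h1, smul_smul,
    mul_comm]

lemma norm_eig {W : H →ₗᵢ[ℂ] H} {α : ℂ} {v : H} (hv : v ≠ 0) (h : W v = α • v) : ‖α‖ = 1 := by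
  have h1 : ‖W v‖ = ‖v‖ := W.norm_map v
  rw [h, norm_smul] at h1
  have h2 : ‖v‖ ≠ 0 := norm_ne_zero_iff.2 hv
  exact mul_right_cancel₀ h2 (by rw [h1, one_mul])

lemma act_mem_span (s : ℕ × ℕ) {v : H}
    (hv : v ∈ Submodule.span ℂ {v | ∃ α β : ℂ, v ∈ Eg U V α β}) :
    act U V s v ∈ Submodule.span ℂ {v | ∃ α β : ℂ, v ∈ Eg U V α β} := by
  induction hv using Submodule.span_induction with
  | mem x hx =>
    obtain ⟨α, β, h⟩ := hx
    rw [act_eig h]
    exact Submodule.smul_mem _ _ (Submodule.subset_span ⟨α, β, h⟩)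
  | zero => rw [map_zero]; exact Submodule.zero_mem _
  | add x y _ _ hx hy => rw [map_add]; exact Submodule.add_mem _ hx hy
  | smul a x _ hx => rw [map_smul]; exact Submodule.smul_mem _ _ hx

variable [CompleteSpace H]

/-- FX-3 -/
theorem act_mem_Hc (hUV : Commute U V) (s : ℕ × ℕ) {v : H} (hv : v ∈ Hc U V) :
    act U V s v ∈ Hc U V := by
  have h : v ∈ closure (Submodule.span ℂ {v | ∃ α β : ℂ, v ∈ Eg U V α β} : Set H) := hv
  exact map_mem_closure (act U V s).continuous h (fun x hx => act_mem_span s hx)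

omit [CompleteSpace H] in
lemma inner_act_eig {α β : ℂ} {v w : H} (h : v ∈ Eg U V α β) (s : ℕ × ℕ)
    (hw : ⟪v, w⟫_ℂ = 0) : ⟪v, act U V s w⟫_ℂ = 0 := by
  by_cases hv : v = 0
  · rw [hv, inner_zero_left]
  obtain ⟨h1, h2⟩ := mem_Eg.1 h
  have ha : ‖α‖ = 1 := norm_eig hv h1
  have hb : ‖β‖ = 1 := norm_eig hv h2
  have hc : conj (α ^ s.1 * β ^ s.2) ≠ 0 := by
    rw [Ne, map_eq_zero]
    have ha0 : α ≠ 0 := by rw [← norm_ne_zero_iff, ha]; exact one_ne_zero
    have hb0 : β ≠ 0 := by rw [← norm_ne_zero_iff, hb]; exact one_ne_zero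
    exact mul_ne_zero (pow_ne_zero _ ha0) (pow_ne_zero _ hb0)
  have e : ⟪act U V s v, act U V s w⟫_ℂ = 0 := by
    rw [(act U V s).inner_map_map, hw]
  rw [act_eig h, inner_smul_left] at e
  exact (mul_eq_zero.1 e).resolve_left hc

/-- FX-3 -/
theorem act_mem_Hc_orth (hUV : Commute U V) (s : ℕ × ℕ) {w : H} (hw : w ∈ (Hc U V)ᗮ) :
    act U V s w ∈ (Hc U V)ᗮ := by
  unfold Hc at hw ⊢
  rw [Submodule.orthogonal_closure] at hw ⊢
  rw [Submodule.mem_orthogonal] at hw ⊢
  intro u hu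
  induction hu using Submodule.span_induction with
  | mem x hx =>
    obtain ⟨α, β, h⟩ := hx
    exact inner_act_eig h s (hw x (Submodule.subset_span ⟨α, β, h⟩))
  | zero => rw [inner_zero_left]
  | add x y _ _ hx hy => rw [inner_add_left, hx, hy, add_zero]
  | smul a x _ hx => rw [inner_smul_left, hx, mul_zero]

/-- FX-3 -/
theorem PP_act (hUV : Commute U V) (s : ℕ × ℕ) (v : H) :
    PP U V (act U V s v) = act U V s (PP U V v) := by
  unfold PP
  refine Submodule.eq_starProjection_of_mem_orthogonal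
    (act_mem_Hc hUV s (Submodule.starProjection_apply_mem _ _)) ?_
  rw [← map_sub]
  exact act_mem_Hc_orth hUV s (Submodule.sub_starProjection_mem_orthogonal v)

end Hilbert

end Helper58.FX
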